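import Mathlib
import Pool.Agent.H39.KG2

namespace Pool.Agent.Results.MP_0d8d6b_gt.GameCex

open Set

variable {X : Type} [TopologicalSpace X]

/-- An open cover of `X` that does not contain `X` itself. -/
def IsCover (𝒰 : Set (Set X)) : Prop :=
  (∀ U ∈ 𝒰, IsOpen U) ∧ ⋃₀ 𝒰 = univ ∧ univ ∉ 𝒰

/-- `ω`-covers. -/
def IsOmegaCover (𝒰 : Set (Set X)) : Prop :=
  IsCover 𝒰 ∧ ∀ F : Set X, F.Finite → ∃ U ∈ 𝒰, F ⊆ U

/-- `k`-covers. -/
def IsKCover (𝒰 : Set (Set X)) : Prop :=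
  IsCover 𝒰 ∧ ∀ K : Set X, IsCompact K → K.Nonempty → ∃ U ∈ 𝒰, K ⊆ U

/-- The list of Two's moves before round `n` (latest move first). -/
def hist (U : ℕ → Set X) : ℕ → List (Set X)
  | 0 => []
  | n + 1 => U n :: hist U n

/-- One has a winning strategy in `G₁(𝒦_X, Ω_X)`. -/
def OneWins (X : Type) [TopologicalSpace X] : Prop :=
  ∃ σ : List (Set X) → Set (Set X), (∀ l, IsKCover (σ l)) ∧
    ∀ U : ℕ → Set X, (∀ n, U n ∈ σ (hist U n)) → ¬ IsOmegaCover (range U)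

/-- One has a winning predetermined strategy in `G₁(𝒦_X, Ω_X)`. -/
def OneWinsPre (X : Type) [TopologicalSpace X] : Prop :=
  ∃ 𝒰 : ℕ → Set (Set X), (∀ n, IsKCover (𝒰 n)) ∧
    ∀ U : ℕ → Set X, (∀ n, U n ∈ 𝒰 n) → ¬ IsOmegaCover (range U)

open Pool.Agent.H39 in
open Classical in
/-- the node of the tree reached after a history. -/
noncomputable def node : List (Set KG1.X) → List KG1.D
  | [] => []
  | V :: l => (if h : ∃ d, V = (KG1.W (d :: node l))ᶜ then h.choose else Classical.arbitrary _)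
      :: node l

open Pool.Agent.H39 in
/-- A Hausdorff space on which One has a winning strategy but no predetermined one. -/
theorem result : ∃ (X : Type) (_ : TopologicalSpace X), T2Space X ∧ OneWins X ∧ ¬ OneWinsPre X := by
  refine ⟨KG1.X, inferInstance, inferInstance, ⟨fun l => range fun d => (KG1.W (d :: node l))ᶜ,
    fun l => ?_, fun U hU hω => ?_⟩, ?_⟩
  · have hk : ∀ K : Set KG1.X, IsCompact K →
        ∃ U ∈ range fun d => (KG1.W (d :: node l))ᶜ, K ⊆ U := fun K hK => by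
      obtain ⟨d, hd⟩ := KG1.compact_miss hK (node l)
      exact ⟨_, ⟨d, rfl⟩, hd⟩
    refine ⟨⟨?_, ?_, ?_⟩, fun K hK _ => hk K hK⟩
    · rintro _ ⟨d, rfl⟩
      exact KG1.isOpen_compl_W _
    · refine eq_univ_of_forall fun x => ?_
      obtain ⟨V, hV, hx⟩ := hk {x} isCompact_singleton
      exact ⟨V, hV, hx rfl⟩
    · rintro ⟨d, hd⟩
      have : KG1.X.pt (d :: node l) KG1.Ex.inf ∈ (KG1.W (d :: node l))ᶜ := by
        have hd : (KG1.W (d :: node l))ᶜ = univ := hd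
        rw [hd]; trivial
      exact this (List.suffix_refl _)
  · have h1 : ∀ n, ∃ d, node (hist U (n + 1)) = d :: node (hist U n) ∧
        U n = (KG1.W (d :: node (hist U n)))ᶜ := by
      intro n
      obtain ⟨d, hd⟩ := hU n
      have h : ∃ d, U n = (KG1.W (d :: node (hist U n)))ᶜ := ⟨d, hd.symm⟩
      refine ⟨h.choose, ?_, h.choose_spec⟩
      simp only [hist, node, dif_pos h]
    choose f hf hU' using h1
    have hr : ∀ n, PiNat.res f n = node (hist U n) := by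
      intro n
      induction n with
      | zero => rfl
      | succ n ih => rw [PiNat.res_succ, ih, hf]
    obtain ⟨_, ⟨n, rfl⟩, hn⟩ := hω.2 {KG1.X.br f} (finite_singleton _)
    have := hn rfl
    rw [hU', ← hf, ← hr] at this
    exact this (KG1.br_res f (n + 1))
  · rintro ⟨𝒰, h𝒰, hw⟩
    obtain ⟨V, hV, hF⟩ := KG1.select 𝒰 (fun n => (h𝒰 n).1.1) (fun n => (h𝒰 n).2)
    refine hw V hV ⟨⟨?_, ?_, ?_⟩, fun F h => ?_⟩
    · rintro _ ⟨n, rfl⟩
      exact (h𝒰 n).1.1 _ (hV n)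
    · refine eq_univ_of_forall fun x => ?_
      obtain ⟨n, hn⟩ := hF {x} (finite_singleton x)
      exact ⟨_, ⟨n, rfl⟩, hn rfl⟩
    · rintro ⟨n, hn⟩
      exact (h𝒰 n).1.2.2 (hn ▸ hV n)
    · obtain ⟨n, hn⟩ := hF F h
      exact ⟨_, ⟨n, rfl⟩, hn⟩

end Pool.Agent.Results.MP_0d8d6b_gt.GameCex
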